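import Pool.Agent.H59.PG.Stmts

/-!
# Parity games, row WIN: history strategies and positional winners

The winner of a positional solution is the winner for strategies which depend on the history.
-/

set_option autoImplicit false

namespace Pool.PG.WIN

open Filter Pool.PG

/-- Two players do not both win a sequence. -/
lemma won_unique (g : Game) (i j : Bool) (x : ℕ → ℕ) (hi : WonBy g i x) (hj : WonBy g j x) :
    i = j := by
  obtain ⟨p, hp1, hp2, hp3⟩ := hi
  obtain ⟨q, hq1, hq2, hq3⟩ := hj
  have h1 : p ≤ q := by
    obtain ⟨n, hn1, hn2⟩ := (hq1.and_eventually hp2).exists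
    omega
  have h2 : q ≤ p := by
    obtain ⟨n, hn1, hn2⟩ := (hp1.and_eventually hq2).exists
    omega
  have h3 : p = q := le_antisymm h1 h2
  subst h3
  cases i <;> cases j <;> simp_all

/-- The next vertex. -/
def nxt (g : Game) (i : Bool) (τ : List ℕ → ℕ) (σ : ℕ → ℕ) (l : List ℕ) : ℕ :=
  if own g (l.getLastD 0) = i then τ l else σ (l.getLastD 0)

/-- The histories of the play in which `i` follows `τ` and the other player follows `σ`. -/
def hst (g : Game) (i : Bool) (τ : List ℕ → ℕ) (σ : ℕ → ℕ) (v : ℕ) : ℕ → List ℕ
  | 0 => [v]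
  | n + 1 => hst g i τ σ v n ++ [nxt g i τ σ (hst g i τ σ v n)]

/-- The play. -/
def ply (g : Game) (i : Bool) (τ : List ℕ → ℕ) (σ : ℕ → ℕ) (v n : ℕ) : ℕ :=
  (hst g i τ σ v n).getLastD 0

lemma getLastD_append_one (l : List ℕ) (a d : ℕ) : (l ++ [a]).getLastD d = a := by
  simp [List.getLastD_eq_getLast?]

lemma ply_zero (g : Game) (i : Bool) (τ : List ℕ → ℕ) (σ : ℕ → ℕ) (v : ℕ) :
    ply g i τ σ v 0 = v := by
  simp [ply, hst]

lemma ply_succ (g : Game) (i : Bool) (τ : List ℕ → ℕ) (σ : ℕ → ℕ) (v n : ℕ) :
    ply g i τ σ v (n + 1) = nxt g i τ σ (hst g i τ σ v n) := by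
  simp only [ply, hst]
  exact getLastD_append_one _ _ _

lemma hst_eq (g : Game) (i : Bool) (τ : List ℕ → ℕ) (σ : ℕ → ℕ) (v n : ℕ) :
    hst g i τ σ v n = (List.range (n + 1)).map (ply g i τ σ v) := by
  induction n with
  | zero => simp [hst, ply_zero]
  | succ n ih =>
    rw [List.range_succ, List.map_append, ← ih]
    simp only [hst, List.map_cons, List.map_nil, ply_succ]

theorem win_row : WINStmt := by
  intro g W σ hV hS v hv i
  constructor
  · rintro ⟨τ, hτ, hw⟩
    by_contra hne
    have hi : WonBy g i (ply g i τ σ v) ∧ WonBy g (W v) (ply g i τ σ v) := by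
      have hlast : ∀ n, hst g i τ σ v n =
          (List.range n).map (ply g i τ σ v) ++ [ply g i τ σ v n] := by
        intro n
        rw [hst_eq, List.range_succ, List.map_append]
        rfl
      have hgl : ∀ n, (hst g i τ σ v n).getLastD 0 = ply g i τ σ v n := fun n => rfl
      have hstep : ∀ n, ply g i τ σ v n < g.length →
          ply g i τ σ v (n + 1) ∈ suc g (ply g i τ σ v n) := by
        intro n hn
        rw [ply_succ]
        unfold nxt
        rw [hgl]
        split_ifs with h
        · rw [hlast n]
          exact hτ _ _ hn h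
        · exact hS.mem _ hn
      have hlt : ∀ n, ply g i τ σ v n < g.length := by
        intro n
        induction n with
        | zero => rw [ply_zero]; exact hv
        | succ n ih => exact (hV _ ih).2 _ (hstep n ih)
      have hplay : Play g v (ply g i τ σ v) :=
        ⟨ply_zero g i τ σ v, fun n => hstep n (hlt n)⟩
      refine ⟨hw _ hplay ?_, hS.won v hv _ hplay ?_⟩
      · intro n hn
        rw [ply_succ, ← hst_eq]
        unfold nxt
        rw [hgl, if_pos hn]
      · intro n hn
        rw [ply_succ]
        unfold nxt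
        rw [hgl, if_neg]
        rw [hn]
        exact hne
    exact hne (won_unique g _ _ _ hi.2 hi.1)
  · intro hW
    refine ⟨fun l => σ (l.getLastD 0), ?_, ?_⟩
    · intro h u hu _
      simp only [getLastD_append_one]
      exact hS.mem u hu
    · intro x hx hf
      rw [← hW]
      apply hS.won v hv x hx
      intro n hn
      rw [hf n (hn.trans hW), List.range_succ, List.map_append]
      exact congrArg σ (getLastD_append_one _ _ _)

end Pool.PG.WIN

namespace Pool.PG

/-- **Row WIN.** -/
theorem win_row : WINStmt := WIN.win_row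

end Pool.PG
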